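import Pool.Agent.Lib.MP_a52643_an.NS.Defs

/-!
Patterns defined by a family of pairs of points.
-/

open MeasureTheory Set Filter Topology Metric UpperHalfPlane
open scoped ENNReal MatrixGroups Real FourierTransform ComplexConjugate

noncomputable section

namespace Pool.Agent.Lib.MP_a52643_an.N2

open NS hiding near nr Zt Zs sb mb pat Geo isOpen_near isOpen_nr isOpen_Zt isOpen_Zs

/-- the two points are within `t` of the two points of a pair of the family -/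
def near (L : Set (ℍ × ℍ)) (t : ℝ) (z z' : ℍ) : Prop :=
  ∃ p ∈ L, (dist z p.1 < t ∧ dist z' p.2 < t) ∨ (dist z p.2 < t ∧ dist z' p.1 < t)

lemma near.move {L : Set (ℍ × ℍ)} {t ρ : ℝ} {z z' w w' : ℍ} (h : near L t z z')
    (h1 : dist w z ≤ ρ) (h2 : dist w' z' ≤ ρ) : near L (t + ρ) w w' := by
  obtain ⟨p, hp, ⟨a, b⟩ | ⟨a, b⟩⟩ := h
  · exact ⟨p, hp, Or.inl ⟨by linarith [dist_triangle w z p.1], by linarith [dist_triangle w' z' p.2]⟩⟩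
  · exact ⟨p, hp, Or.inr ⟨by linarith [dist_triangle w z p.2], by linarith [dist_triangle w' z' p.1]⟩⟩

lemma near.mono {L : Set (ℍ × ℍ)} {t t' : ℝ} {z z' : ℍ} (h : near L t z z') (ht : t ≤ t') :
    near L t' z z' := by
  obtain ⟨p, hp, ⟨a, b⟩ | ⟨a, b⟩⟩ := h
  · exact ⟨p, hp, Or.inl ⟨a.trans_le ht, b.trans_le ht⟩⟩
  · exact ⟨p, hp, Or.inr ⟨a.trans_le ht, b.trans_le ht⟩⟩

lemma near.symm {L : Set (ℍ × ℍ)} {t : ℝ} {z z' : ℍ} (h : near L t z z') : near L t z' z := by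
  obtain ⟨p, hp, ⟨a, b⟩ | ⟨a, b⟩⟩ := h
  · exact ⟨p, hp, Or.inr ⟨b, a⟩⟩
  · exact ⟨p, hp, Or.inl ⟨b, a⟩⟩

lemma isOpen_near (L : Set (ℍ × ℍ)) (t : ℝ) : IsOpen {p : ℍ × ℍ | near L t p.1 p.2} := by
  have : {p : ℍ × ℍ | near L t p.1 p.2} = ⋃ q ∈ L, (ball q.1 t ×ˢ ball q.2 t ∪
      ball q.2 t ×ˢ ball q.1 t) := by
    ext p; simp [near]
  rw [this]
  exact isOpen_biUnion fun _ _ =>
    (isOpen_ball.prod isOpen_ball).union (isOpen_ball.prod isOpen_ball)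

def nr (L : Set (ℍ × ℍ)) (t ℓ : ℝ) (g : SL2) (τ x : ℝ) : Prop :=
  near L t (g • pt x τ) (g • pt x (τ + ℓ))

/-- `Λ` acts discretely and cocompactly, `L` is an invariant family of pairs which is small at
every scale -/
structure Geo (Λ : Set SL2) (L : Set (ℍ × ℍ)) : Prop where
  base : NS.Geo Λ ∅
  near_iff : ∀ {γ : SL2}, γ ∈ Λ → ∀ (t : ℝ) (z z' : ℍ), near L t (γ • z) (γ • z') ↔ near L t z z'
  cover : ∀ {t : ℝ}, 1 ≤ t → ∃ C ℓ₁ : ℝ, ∀ ℓ ≥ ℓ₁, ∀ (g : SL2) (τ x₀ : ℝ), ∃ s : Finset ℝ,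
    (s.card : ℝ) ≤ C * Real.exp (ℓ / 10 ^ 14) ∧
      ∀ x ∈ Icc x₀ (x₀ + Real.exp (τ + ℓ)), nr L t ℓ g τ x → ∃ y ∈ s, x ∈ Icc y (y + Real.exp τ)

def Zt (L : Set (ℍ × ℍ)) (t ℓ : ℝ) (g : SL2) (τ : ℝ) (a : Finset ℕ) : Set ℝ :=
  {x | ∀ j ∈ a, nr L t ℓ g (τ + j * ℓ) x}

def Zs (L : Set (ℍ × ℍ)) (t ℓ : ℝ) (g : SL2) (τ : ℝ) (b : Finset ℕ) : Set ℝ :=
  {x | ∀ j ∈ b, nr L t ℓ g (-τ - (j + 1) * ℓ) x}

lemma isOpen_nr (L : Set (ℍ × ℍ)) (t ℓ : ℝ) (g : SL2) (τ : ℝ) : IsOpen {x | nr L t ℓ g τ x} :=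
  (isOpen_near L t).preimage (f := fun x => (g • pt x τ, g • pt x (τ + ℓ))) (by
    have h : ∀ s, Continuous fun x => pt x s := fun s =>
      continuous_pt.comp (continuous_id.prodMk continuous_const)
    exact ((h _).const_smul g).prodMk ((h _).const_smul g))

lemma isOpen_Zt (L : Set (ℍ × ℍ)) (t ℓ : ℝ) (g : SL2) (τ : ℝ) (a : Finset ℕ) :
    IsOpen (Zt L t ℓ g τ a) := by
  have : Zt L t ℓ g τ a = ⋂ j ∈ a, {x | nr L t ℓ g (τ + j * ℓ) x} := by ext x; simp [Zt]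
  rw [this]; exact isOpen_biInter_finset fun _ _ => isOpen_nr _ _ _ _ _

lemma isOpen_Zs (L : Set (ℍ × ℍ)) (t ℓ : ℝ) (g : SL2) (τ : ℝ) (a : Finset ℕ) :
    IsOpen (Zs L t ℓ g τ a) := by
  have : Zs L t ℓ g τ a = ⋂ j ∈ a, {x | nr L t ℓ g (-τ - (j + 1) * ℓ) x} := by ext x; simp [Zs]
  rw [this]; exact isOpen_biInter_finset fun _ _ => isOpen_nr _ _ _ _ _

lemma nr.move {L : Set (ℍ × ℍ)} {t ℓ τ x x' : ℝ} {g : SL2} (h : nr L t ℓ g τ x) (hℓ : 0 ≤ ℓ)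
    (hx : |x' - x| ≤ Real.exp τ) : nr L (t + 1) ℓ g τ x' := by
  have k : ∀ s, τ ≤ s → dist (g • pt x' s) (g • pt x s) ≤ 1 := fun s hs => by
    rw [dist_smul]
    refine (dist_pt_le _ _ _).trans ?_
    rw [Real.exp_neg, ← div_eq_mul_inv, div_le_one (Real.exp_pos s)]
    exact hx.trans (Real.exp_le_exp.2 hs)
  exact near.move h (k _ le_rfl) (k _ (by linarith))

def sb (L : Set (ℍ × ℍ)) (t ℓ : ℝ) (g : SL2) : Prop := near L t (bp g) (bp (g * aG ℓ))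

def mb (L : Set (ℍ × ℍ)) (t ℓ : ℝ) (g : SL2) : Prop :=
  ∀ i < 2000, sb L t ℓ (g * aG ((i : ℕ) * ℓ))

open Classical in
def pat (L : Set (ℍ × ℍ)) (t ℓ : ℝ) (n : ℕ) (g : SL2) : Finset ℕ :=
  (Finset.range n).filter fun j => mb L t ℓ (g * aG (j * (2000 * ℓ)))

end Pool.Agent.Lib.MP_a52643_an.N2
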