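import Pool.Agent.Lib.MP_a52643_an.N2.End1

/-!
The contradiction.
-/

open MeasureTheory Set Filter Topology Metric UpperHalfPlane
open scoped ENNReal MatrixGroups Real FourierTransform ComplexConjugate

noncomputable section

namespace Pool.Agent.Lib.MP_a52643_an.N2

open NS

lemma end2_inter (L : Set (ℍ × ℍ)) (t ℓ : ℝ) (n : ℕ) (g : SL2) :
    pat L t ℓ (26 * n) g ∩ Finset.range n = pat L t ℓ n g := by
  ext j
  simp only [Finset.mem_inter, mem_pat, Finset.mem_range]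
  exact ⟨fun h => ⟨h.2, h.1.2⟩, fun h => ⟨⟨by omega, h.2⟩, h.1⟩⟩

lemma end2_card (L : Set (ℍ × ℍ)) (t : ℝ) {ℓ h : ℝ} {n : ℕ} (hn : h = n * (2000 * ℓ)) (g : SL2) :
    (pat L t ℓ (26 * n) g ∩ Finset.Ico (25 * n) (26 * n)).card
      = (pat L t ℓ n (g * aG (25 * h))).card := by
  have e : ∀ j : ℕ, g * aG (25 * h) * aG (j * (2000 * ℓ))
      = g * aG ((j + 25 * n : ℕ) * (2000 * ℓ)) := fun j => by
    rw [mul_assoc, ← aG_add, hn]
    congr 2
    push_cast
    ring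
  rw [← Finset.card_image_of_injective (pat L t ℓ n (g * aG (25 * h)))
    (add_left_injective (25 * n))]
  congr 1
  ext j
  simp only [Finset.mem_inter, mem_pat, Finset.mem_Ico, Finset.mem_image, e]
  constructor
  · rintro ⟨⟨h1, h2⟩, h3, -⟩
    exact ⟨j - 25 * n, ⟨by omega, by rwa [Nat.sub_add_cancel h3]⟩, Nat.sub_add_cancel h3⟩
  · rintro ⟨i, ⟨h1, h2⟩, rfl⟩
    exact ⟨⟨by omega, h2⟩, by omega, by omega⟩

/-- some mass in the window that starts at time `p` -/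
def end2U (L : Set (ℍ × ℍ)) (ℓ : ℝ) (n : ℕ) (t p : ℝ) : Set SL2 :=
  tm p {g | n < 20 * (pat L t ℓ n g).card}

/-- a deficit in the window that starts at time `p` -/
def end2D (L : Set (ℍ × ℍ)) (ℓ : ℝ) (n : ℕ) (t p : ℝ) : Set SL2 :=
  tm p {g | 40 * (pat L t ℓ n g).card < 39 * n}

variable {Λ : Set SL2} {L : Set (ℍ × ℍ)} {P : Measure SL2} {h ℓ θ m : ℝ} {n : ℕ}

lemma end2_or (hn : 0 < n) (t p : ℝ) (g : SL2) : g ∈ end2U L ℓ n t p ∨ g ∈ end2D L ℓ n t p := by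
  simp only [end2U, end2D, tm, mem_ofPred_eq]
  omega

lemma Ctx.end2_bad (C : Ctx Λ L P h ℓ θ m n) {t t' p p' : ℝ} (t0 : 1 ≤ t) (t1 : t ≤ 18)
    (p0 : -46 * h ≤ p) (p1 : p ≤ 20 * h) (ht : t' = t + 4) (hp : p' = p + 25 * h) :
    P.real (end2U L ℓ n t p ∩ end2D L ℓ n t' p') ≤ 1 / 20 + 60 * θ := by
  refine le_trans (le_of_eq ?_) (C.bad t0 t1 p0 p1)
  congr 1
  ext g
  simp only [end2U, end2D, tm, Bad, mem_inter_iff, mem_ofPred_eq, end2_inter, end2_card L _ C.hn,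
    ht, hp, aG_add, mul_assoc]

lemma Ctx.end2_low (C : Ctx Λ L P h ℓ θ m n) :
    m - 1 / 20 ≤ P.real (end2U L ℓ n 3 (-46 * h)) := by
  have := C.prob
  have hn : 0 < n := lt_of_lt_of_le (by norm_num) C.n1
  have hℓ := C.l0
  refine markov hn (a := fun g => pat L 3 ℓ n (g * aG (-46 * h))) (fun g => pat_subset _ _ _ _ _)
    (fun Φ => measurableSet_tm _ (measurableSet_pat L 3 ℓ n Φ)) fun j hj => ?_
  have h1 : ((j : ℝ) + 1) * (2000 * ℓ) ≤ h := by
    rw [C.hn]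
    exact mul_le_mul_of_nonneg_right (by exact_mod_cast hj) (by positivity)
  have h2 : 0 ≤ (j : ℝ) * (2000 * ℓ) := by positivity
  refine (C.bit (-46 * h + j * (2000 * ℓ)) (by linarith) (by linarith [C.h1])).trans (le_of_eq ?_)
  congr 1
  ext g
  simp only [tm, mem_ofPred_eq, mem_pat, hj, true_and, aG_add, mul_assoc]

lemma Ctx.end2_tr (C : Ctx Λ L P h ℓ θ m n) :
    P.real (end2U L ℓ n 3 (-46 * h) ∩ end2U L ℓ n 11 (4 * h))
      ≤ P.real (end2U L ℓ n 12 (-5 * h) ∩ end2D L ℓ n 20 (45 * h)) + 30 * θ := by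
  have h1 := C.h1
  have mm : ∀ (t p : ℝ) (Φ : Finset ℕ → Prop), MeasurableSet (tm p {g | Φ (pat L t ℓ n g)}) :=
    fun t p Φ => measurableSet_tm _ (measurableSet_pat L t ℓ n Φ)
  have ii : ∀ (t p : ℝ) (Φ : Finset ℕ → Prop), LI Λ (tm p {g | Φ (pat L t ℓ n g)}) :=
    fun t p Φ => LI.tm (fun γ hγ g => by simp only [mem_ofPred_eq, C.geo.pat_inv t ℓ n hγ]) p
  have i2 : ∀ {A B : Set SL2}, LI Λ A → LI Λ B → LI Λ (A ∩ B) := fun hA hB γ hγ g =>
    and_congr (hA γ hγ g) (hB γ hγ g)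
  have e : tm (-(9 * h)) (end2U L ℓ n 12 (4 * h) ∩ end2D L ℓ n 20 (54 * h))
      = end2U L ℓ n 12 (-5 * h) ∩ end2D L ℓ n 20 (45 * h) := by
    ext g
    simp only [end2U, end2D, tm, mem_inter_iff, mem_ofPred_eq, mul_assoc, ← aG_add]
    rw [show -(9 * h) + 4 * h = -5 * h by ring, show -(9 * h) + 54 * h = 45 * h by ring]
  rw [← e]
  refine C.tr (9 * h) (by linarith) (by linarith)
    (end2U L ℓ n 3 (-46 * h) ∩ end2U L ℓ n 11 (4 * h))
    (end2U L ℓ n 12 (4 * h) ∩ end2D L ℓ n 20 (54 * h))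
    ((mm 3 _ fun a => n < 20 * a.card).inter (mm 11 _ fun a => n < 20 * a.card))
    ((mm 12 _ fun a => n < 20 * a.card).inter (mm 20 _ fun a => 40 * a.card < 39 * n))
    (i2 (ii 3 _ fun a => n < 20 * a.card) (ii 11 _ fun a => n < 20 * a.card))
    (i2 (ii 12 _ fun a => n < 20 * a.card) (ii 20 _ fun a => 40 * a.card < 39 * n)) fun g => ?_
  rcases Set.eq_empty_or_nonempty {ξ | |ξ| ≤ Real.exp (52 * h + 9 * h) ∧
    g * vG (-(ξ / Real.exp (100 * h))) ∈ end2U L ℓ n 3 (-46 * h) ∩ end2U L ℓ n 11 (4 * h)} with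
    hY | ⟨ξ₀, hξ, -, hA⟩
  · intro f _ _ Ξ
    rw [hY]
    simp
  have fup := C.fup n (by omega) (fun a => n < 20 * a.card) (fun b => 39 * n ≤ 40 * b.card) 3 20
    (by norm_num) le_rfl (fun a b ha hb h2 h3 => Or.inl (by
      have h4 := Finset.card_union_add_card_inter a b
      have h5 := Finset.card_le_card (Finset.union_subset ha hb)
      rw [Finset.card_range] at h5
      have h6 : n ≤ 40 * (a ∩ b).card := by omega
      have h7 : (n : ℝ) ≤ 40 * (a ∩ b).card := by exact_mod_cast h6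
      linarith [Nat.cast_nonneg (α := ℝ) (a ∩ b).card])) g (-46 * h)
  refine fup.mono (fun x hx => ?_) (fun ξ hξ => hξ.2.1) le_rfl
  have hs : |-(ξ₀ / Real.exp (100 * h))| ≤ Real.exp (-39 * h) := by
    rw [abs_neg, abs_div, abs_of_pos (Real.exp_pos _), div_le_iff₀ (Real.exp_pos _),
      ← Real.exp_add]
    exact hξ.trans (le_of_eq (by congr 1; ring))
  have hc := cls_box g (p := 4 * h) (w := n * (2000 * ℓ)) hx.1 hs
  have hρ : Real.exp (-39 * h) * Real.exp (-(4 * h))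
      + Real.exp (-49 * h) * Real.exp (4 * h + n * (2000 * ℓ)) ≤ 1 := by
    have h2 : Real.exp (-1) ≤ 1 / 2 := by
      rw [Real.exp_neg, inv_le_comm₀ (Real.exp_pos _) (by norm_num)]
      linarith [Real.add_one_le_exp 1]
    rw [← C.hn, ← Real.exp_add, ← Real.exp_add]
    have h3 : Real.exp (-39 * h + -(4 * h)) ≤ Real.exp (-1) := Real.exp_le_exp.2 (by linarith)
    have h4 : Real.exp (-49 * h + (4 * h + h)) ≤ Real.exp (-1) := Real.exp_le_exp.2 (by linarith)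
    linarith
  have h5 := Finset.card_le_card
    (pat_move (L := L) (t := 11) C.l0.le fun τ hτ => (hc τ hτ).trans hρ)
  rw [show (11 : ℝ) + 1 = 12 by norm_num] at h5
  have h6 : n < 20 * (pat L 11 ℓ n (g * vG (-(ξ₀ / Real.exp (100 * h))) * aG (4 * h))).card := hA
  have h7 : g * uG x ∈ end2U L ℓ n 12 (4 * h) := lt_of_lt_of_le h6 (Nat.mul_le_mul_left _ h5)
  have h8 : ¬ 40 * (pat L 20 ℓ n (g * uG x * aG (54 * h))).card < 39 * n := fun h9 => hx.2 ⟨h7, h9⟩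
  rw [mem_ofPred_eq, show -46 * h + 100 * h = 54 * h by ring]
  omega

theorem Ctx.elim {Λ : Set SL2} {L : Set (ℍ × ℍ)} {P : Measure SL2} {h ℓ θ m : ℝ} {n : ℕ}
    (C : Ctx Λ L P h ℓ θ m n) : False := by
  have := C.prob
  have h1 := C.h1
  have hn : 0 < n := lt_of_lt_of_le (by norm_num) C.n1
  have b1 := C.end2_bad (t := 3) (t' := 7) (p := -46 * h) (p' := -21 * h) (by norm_num)
    (by norm_num) le_rfl (by linarith) (by norm_num) (by ring)
  have b2 := C.end2_bad (t := 7) (t' := 11) (p := -21 * h) (p' := 4 * h) (by norm_num)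
    (by norm_num) (by linarith) (by linarith) (by norm_num) (by ring)
  have b3 := C.end2_bad (t := 12) (t' := 16) (p := -5 * h) (p' := 20 * h) (by norm_num)
    (by norm_num) (by linarith) (by linarith) (by norm_num) (by ring)
  have b4 := C.end2_bad (t := 16) (t' := 20) (p := 20 * h) (p' := 45 * h) (by norm_num)
    (by norm_num) (by linarith) le_rfl (by norm_num) (by ring)
  have s1 : end2U L ℓ n 3 (-46 * h) ⊆ (end2U L ℓ n 3 (-46 * h) ∩ end2U L ℓ n 11 (4 * h)) ∪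
      ((end2U L ℓ n 3 (-46 * h) ∩ end2D L ℓ n 7 (-21 * h)) ∪
        (end2U L ℓ n 7 (-21 * h) ∩ end2D L ℓ n 11 (4 * h))) := fun g hg => by
    rcases end2_or (L := L) (ℓ := ℓ) hn 11 (4 * h) g with h2 | h2
    · exact Or.inl ⟨hg, h2⟩
    · rcases end2_or (L := L) (ℓ := ℓ) hn 7 (-21 * h) g with h3 | h3
      · exact Or.inr (Or.inr ⟨h3, h2⟩)
      · exact Or.inr (Or.inl ⟨hg, h3⟩)
  have s2 : end2U L ℓ n 12 (-5 * h) ∩ end2D L ℓ n 20 (45 * h) ⊆
      (end2U L ℓ n 12 (-5 * h) ∩ end2D L ℓ n 16 (20 * h)) ∪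
        (end2U L ℓ n 16 (20 * h) ∩ end2D L ℓ n 20 (45 * h)) := fun g hg => by
    rcases end2_or (L := L) (ℓ := ℓ) hn 16 (20 * h) g with h2 | h2
    · exact Or.inr ⟨h2, hg.2⟩
    · exact Or.inl ⟨hg.1, h2⟩
  have m1 := (measureReal_mono (μ := P) s1).trans ((measureReal_union_le _ _).trans
    (add_le_add le_rfl (measureReal_union_le _ _)))
  have m2 := (measureReal_mono (μ := P) s2).trans (measureReal_union_le _ _)
  linarith [C.end2_low, C.end2_tr, C.t1, C.m1]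

end Pool.Agent.Lib.MP_a52643_an.N2
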