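import Pool.Agent.Lib.MP_a52643_an.N2.End2
import Pool.Agent.Lib.MP_a52643_an.N2.Fup
import Pool.Agent.Lib.MP_a52643_an.SE.Defs

/-!
The bound on the mass of the frames that follow the family during a long block.
-/

open MeasureTheory Set Filter Topology Metric UpperHalfPlane
open scoped ENNReal MatrixGroups Real FourierTransform ComplexConjugate

noncomputable section

namespace Pool.Agent.Lib.MP_a52643_an.N2

open NS

variable {Λ : Set SL2} {L : Set (ℍ × ℍ)}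

lemma mb.move' {t ℓ ρ : ℝ} {g g' : SL2} (h : mb L t ℓ g) (hℓ : 0 ≤ ℓ)
    (hc : Cls ρ (2000 * ℓ) g g') : mb L (t + ρ) ℓ g' := by
  intro i hi
  have h1 : (i : ℝ) + 1 ≤ 2000 := by exact_mod_cast hi
  have h0 : (0 : ℝ) ≤ i := Nat.cast_nonneg i
  refine near.move (h i hi) (hc _ ⟨by positivity, by nlinarith⟩) ?_
  rw [mul_assoc, mul_assoc, ← aG_add]
  exact hc _ ⟨by positivity, by nlinarith⟩

lemma end3_dist (g : SL2) (s s' : ℝ) : dist (bp (g * aG s)) (bp (g * aG s')) = |s - s'| := by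
  rw [bp_mul, bp_mul, dist_smul, bp_aG, bp_aG, dist_pt_eq, abs_sub_comm]
  congr 1; ring

lemma mb.len {t ℓ ℓ' : ℝ} {g : SL2} (h : mb L t ℓ g) (h1 : ℓ ≤ ℓ') (h2 : ℓ' ≤ ℓ + 1 / 8000) :
    mb L (t + 1 / 4) ℓ' g := by
  intro i hi
  have a1 : (i : ℝ) + 1 ≤ 2000 := by exact_mod_cast hi
  have a0 : (0 : ℝ) ≤ i := Nat.cast_nonneg i
  refine near.move (h i hi) ?_ ?_
  · rw [end3_dist, abs_le]; constructor <;> nlinarith
  · rw [mul_assoc, mul_assoc, ← aG_add, ← aG_add, end3_dist, abs_le]; constructor <;> nlinarith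

theorem Geo.endgame (G : Geo Λ L) :
    ∃ ℓ₁ : ℝ, ∀ ℓ₀ ≥ ℓ₁, ∃ h₀ : ℝ, ∀ h ≥ h₀, ∀ P₀ P : Measure SL2, IsProbabilityMeasure P₀ →
      IsProbabilityMeasure P → SE.Tr1 Λ P h (1 / 10 ^ 16) → SE.Tr0 Λ P₀ P h (1 / 10 ^ 16) →
      P₀.real {g | mb L (1 / 4) ℓ₀ g} ≤ 1 / 2 - 5 / 10 ^ 14 := by
  obtain ⟨ℓ₁, l1, hf⟩ := G.fupu (t := 20) (c := 1 / 384000000000) (by norm_num) le_rfl
  refine ⟨ℓ₁, fun ℓ₀ hℓ₀ => ⟨2000 * ℓ₀ * (384000000000 + 8000 * ℓ₀ + 1),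
    fun h hh P₀ P hP₀ hP tr tr₀ => ?_⟩⟩
  have l00 : 1 ≤ ℓ₀ := l1.trans hℓ₀
  have hq : 384000000000 + 8000 * ℓ₀ + 1 ≤ h / (2000 * ℓ₀) := by
    rw [le_div_iff₀ (by linarith)]; linarith
  have h1 : 1 ≤ h := by nlinarith
  set n := ⌊h / (2000 * ℓ₀)⌋₊ with hn
  have n3' : h / (2000 * ℓ₀) < n + 1 := Nat.lt_floor_add_one _
  have n1' : (384000000000 : ℝ) ≤ n := by linarith
  have n1 : 384000000000 ≤ n := by exact_mod_cast n1'
  have n4 : 8000 * ℓ₀ ≤ n := by linarith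
  have n2 : (n : ℝ) * (2000 * ℓ₀) ≤ h := by
    rw [← le_div_iff₀ (by linarith)]; exact Nat.floor_le (by positivity)
  have n3 : h < (n + 1) * (2000 * ℓ₀) := by
    rw [← div_lt_iff₀ (by linarith)]; exact n3'
  set ℓ := h / (2000 * n) with hℓ
  have e1 : h = n * (2000 * ℓ) := by rw [hℓ]; field_simp
  have l2 : ℓ₀ ≤ ℓ := by rw [hℓ, le_div_iff₀ (by linarith)]; linarith
  have l3 : ℓ ≤ ℓ₀ + 1 / 8000 := by rw [hℓ, div_le_iff₀ (by linarith)]; nlinarith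
  have l0 : 0 < ℓ := by linarith
  have l4 : 2000 * ℓ ≤ h := by rw [e1]; nlinarith
  by_contra hm
  push Not at hm
  have ex : ∀ x, x ≤ -2 → Real.exp x ≤ 1 / 4 := fun x hx => by
    have h2 := stat_half (x := x / 2) (by linarith)
    have h3 := Real.exp_pos (x / 2)
    rw [← exp_half x]; nlinarith
  have s0 : P₀.real {g | mb L (1 / 4) ℓ₀ g} ≤ P₀.real (tm 0 {g | mb L (1 / 2) ℓ g}) := by
    refine measureReal_mono (fun g hg => ?_) (measure_ne_top _ _)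
    have := mb.len hg l2 l3
    rw [show (1 : ℝ) / 4 + 1 / 4 = 1 / 2 by norm_num] at this
    simpa [tm, aG_zero] using this
  have s1 := (tr₀ (22 * h) le_rfl (by linarith)).stat (p := 0) (w := 2000 * ℓ) (ρ := 1 / 2)
    (Real.exp_pos _) (measurableSet_mb L (1 / 2) ℓ) (measurableSet_mb L (1 / 2 + 1 / 2) ℓ)
    (G.LI_mb _ _) (G.LI_mb _ _) (fun g hg g' h' => mb.move' hg l0.le h') (by
      rw [← Real.exp_sub, ← Real.exp_add, ← Real.exp_add]
      linarith [ex (52 * h + 22 * h - 100 * h + -0) (by linarith),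
        ex (-31 * h + (0 + 2000 * ℓ)) (by linarith)])
  rw [show (1 : ℝ) / 2 + 1 / 2 = 1 by norm_num] at s1
  refine Ctx.elim (m := 1 / 2 - 1 / 10 ^ 13) (n := n) ⟨G, hP, h1, l0, e1, n1, by norm_num,
    by norm_num, le_rfl, tr, fun p p0 p1 => ?_, fun N hN Φ Φ' t₁ t₂ a b c g p => ?_⟩
  · have := transport h1 tr (w := 2000 * ℓ) (p := 0 - 22 * h) (q := p) (measurableSet_mb L 1 ℓ)
      (measurableSet_mb L (1 + 1) ℓ) (measurableSet_mb L (1 + 1 + 1) ℓ) (G.LI_mb _ _) (G.LI_mb _ _)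
      (G.LI_mb _ _) (fun g hg g' h' => mb.move hg l0.le h') (fun g hg g' h' => mb.move hg l0.le h')
      (by linarith) (by linarith) (by linarith) (by linarith) p0 p1
    rw [show (1 : ℝ) + 1 + 1 = 3 by norm_num] at this
    linarith
  · refine (hf ℓ (hℓ₀.le.trans l2) n N hN Φ Φ' t₁ t₂ a b c g p (100 * h)).mono subset_rfl
      subset_rfl ?_
    have h2 : (n : ℝ) ^ 3 / (Nat.factorial 3 : ℕ) ≤ Real.exp n :=
      Real.pow_div_factorial_le_exp _ (by linarith) 3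
    have h3 : (384000000000 : ℝ) ^ 3 ≤ (n : ℝ) ^ 3 := by gcongr
    rw [Real.exp_neg, inv_le_comm₀ (Real.exp_pos _) (by norm_num)]
    norm_num [Nat.factorial] at h2 h3 ⊢
    linarith

end Pool.Agent.Lib.MP_a52643_an.N2
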