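import Pool.Agent.Lib.MP_a52643_an.N2.Vol
import Pool.Agent.Lib.MP_a52643_an.NS.Maj0

/-!
The majorant with Fourier decay, in a normalised frame.
-/

open MeasureTheory Set Filter Topology Metric UpperHalfPlane
open scoped ENNReal MatrixGroups Real FourierTransform ComplexConjugate

noncomputable section

namespace Pool.Agent.Lib.MP_a52643_an.N2

open NS

/-- moving the small scales to the chart -/
lemma Geo.maj0_chart {Λ : Set SL2} {L : Set (ℍ × ℍ)} (G : Geo Λ L) {t ℓ τ z y : ℝ} {g γ β : SL2} (hγ : γ ∈ Λ)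
    (hh : Cl (β⁻¹ * γ * (g * uG y))) (hz : z ∈ Ico (0 : ℝ) 1) (hℓ : 0 ≤ ℓ) (hτ : τ + ℓ ≤ 0)
    (hn : nr L t ℓ g τ (z + y)) :
    nr L (t + 1) ℓ β τ (mob (β⁻¹ * γ * (g * uG y)) z) := by
  have key : ∀ σ, σ ≤ 0 → dist (β • pt (mob (β⁻¹ * γ * (g * uG y)) z) σ)
      (γ • g • pt (z + y) σ) ≤ 1 := fun σ hσ => by
    have e : γ • g • pt (z + y) σ = β • (β⁻¹ * γ * (g * uG y)) • pt z σ := by
      rw [← uG_pt, ← mul_smul β, ← mul_smul g, ← mul_smul γ]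
      congr 1; group
    rw [e, dist_smul]
    exact hol hh ⟨hz.1, hz.2.le⟩ hσ
  exact near.move ((G.near_iff hγ t _ _).2 hn) (key _ (by linarith)) (key _ hτ)

theorem Geo.maj0 {Λ : Set SL2} {L : Set (ℍ × ℍ)} (G : Geo Λ L) {t : ℝ} (ht : 1 ≤ t) :
    ∃ C ℓ₁ : ℝ, 1 ≤ C ∧ 1 ≤ ℓ₁ ∧ ∀ ℓ ≥ ℓ₁, ∀ (g : SL2) (a : Finset ℕ) (q₀ p k : ℕ), q₀ ≤ p →
      ∃ ψ : ℝ → ℝ, Measurable ψ ∧ (∀ x, 0 ≤ ψ x) ∧ Integrable ψ ∧
        (∀ x ∈ Zt L t ℓ g (-(p * ℓ)) (a ∩ Finset.Ico q₀ (p + k)),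
          x ∈ Icc 0 (3 * Real.exp (k * ℓ)) → 1 ≤ ψ x) ∧
        ∫ x, ψ x ≤ (C * Real.exp (ℓ / 10 ^ 14)) ^ (p + k - q₀ + 1)
          * Real.exp (k * ℓ - ℓ * cd a q₀ (p + k)) ∧
        ∀ Ω, Real.exp (k * ℓ) ≤ |Ω| →
          ‖𝓕 (fun x => (ψ x : ℂ)) Ω‖ ≤ C * Real.exp (k * ℓ - k * ℓ / 8) := by
  classical
  obtain ⟨Cv, ℓ₁, hCv, hℓ₁, hv⟩ := G.vol (t := t + 1) (by linarith)
  obtain ⟨B, hB⟩ := G.base.net
  obtain ⟨Cf, hCf, hf⟩ := G.base.maj0_fib
  have hB0 : (0 : ℝ) ≤ B.card := Nat.cast_nonneg _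
  have hBC : 0 ≤ 2 * (B.card * Cf) := by positivity
  refine ⟨24 + Cv + 2 * (B.card * Cf), ℓ₁, by linarith, hℓ₁, fun ℓ hℓ g a q₀ p k hq => ?_⟩
  have hℓ0 : 0 ≤ ℓ := by linarith [hℓ.le]
  choose γ hγ β hβ hcl using fun m : ℕ => hB (g * uG m)
  have hs : 0 ≤ (k : ℝ) * ℓ := by positivity
  set E := Real.exp (k * ℓ) with hE
  have hE1 : 1 ≤ E := Real.one_le_exp hs
  set Z := Zt L t ℓ g (-(p * ℓ)) (a ∩ Finset.Ico q₀ (p + k)) with hZ
  set S := (Finset.range (⌊3 * E⌋₊ + 1)).filter fun m : ℕ => ∃ x ∈ Z, x ∈ Ico (m : ℝ) (m + 1)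
    with hSdef
  set W : SL2 → Set ℝ := fun b => Zt L (t + 1) ℓ b (-(p * ℓ)) (a ∩ Finset.Ico q₀ p) with hWdef
  have hW : ∀ b, MeasurableSet (W b) := fun b => (isOpen_Zt _ _ _ _ _ _).measurableSet
  have hS3 : ∀ m ∈ S, (m : ℝ) ≤ 3 * E := fun m hm => by
    have h1 := Finset.mem_range.1 (Finset.mem_filter.1 hm).1
    have h2 : (m : ℝ) ≤ ⌊3 * E⌋₊ := by exact_mod_cast Nat.lt_succ_iff.1 h1
    exact h2.trans (Nat.floor_le (by positivity))
  have hint : ∀ m ∈ S, Integrable fun x => maj0Q (W (β m)) ((β m)⁻¹ * γ m * (g * uG m)) (x - m) :=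
    fun m _ => (maj0Q_int (hW _) (hcl m)).comp_sub_right _
  refine ⟨fun x => ∑ m ∈ S, maj0Q (W (β m)) ((β m)⁻¹ * γ m * (g * uG m)) (x - m),
    Finset.measurable_sum _ fun m _ => (maj0Q_meas (hW _) _).comp (measurable_sub_const _),
    fun x => Finset.sum_nonneg fun m _ => maj0Q_nn _ _ _, integrable_finsetSum _ hint,
    fun x hx hx' => ?_, ?_, fun Ω hΩ => ?_⟩
  · have hm : x ∈ Ico (⌊x⌋₊ : ℝ) (⌊x⌋₊ + 1) := ⟨Nat.floor_le hx'.1, Nat.lt_floor_add_one x⟩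
    have hmS : ⌊x⌋₊ ∈ S := Finset.mem_filter.2
      ⟨Finset.mem_range.2 (Nat.lt_succ_of_le (Nat.floor_mono hx'.2)), x, hx, hm⟩
    refine le_trans ?_ (Finset.single_le_sum (fun m _ => maj0Q_nn _ _ _) hmS)
    have hz : x - ⌊x⌋₊ ∈ Ico (0 : ℝ) 1 := ⟨by linarith [hm.1], by linarith [hm.2]⟩
    refine maj0Q_one (hcl _) hz fun j hj => ?_
    obtain ⟨hja, hj⟩ := Finset.mem_inter.1 hj
    rw [Finset.mem_Ico] at hj
    refine G.maj0_chart (hγ _) (hcl _) hz hℓ0 ?_ ?_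
    · have : (j : ℝ) + 1 ≤ p := by exact_mod_cast hj.2
      nlinarith
    · rw [sub_add_cancel]
      exact hx j (Finset.mem_inter.2 ⟨hja, Finset.mem_Ico.2 ⟨hj.1, by omega⟩⟩)
  · set D := Cv * Real.exp (ℓ / 10 ^ 14) with hD
    have he1 : 1 ≤ Real.exp (ℓ / 10 ^ 14) := Real.one_le_exp (by positivity)
    have hD0 : 0 ≤ D := by positivity
    have hcard : (S.card : ℝ) ≤ 4 * (D ^ k * Real.exp (k * ℓ - ℓ * cd a p (p + k))) := by
      have h1 := maj0_vol (A := Zt L (t + 1) ℓ g (-(p * ℓ)) (a ∩ Finset.Ico p (p + k))) (E := E)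
        (v := D ^ k * Real.exp (k * ℓ - ℓ * cd a p (p + k))) (by positivity) (fun x => by
          have := (hv ℓ hℓ g (-(p * ℓ)) (a ∩ Finset.Ico p (p + k)) p (p + k) x (by omega)).1
          rwa [maj0_cd, Nat.add_sub_cancel_left,
            show -((p : ℝ) * ℓ) + ((p + k : ℕ) : ℝ) * ℓ = k * ℓ by push_cast; ring] at this) 0 3
      refine maj0_card (A := Zt L (t + 1) ℓ g (-(p * ℓ)) (a ∩ Finset.Ico p (p + k))
        ∩ Icc 0 (0 + ((3 : ℕ) + 1) * E)) (fun m hm y hy => ⟨fun j hj => ?_, ?_, ?_⟩) (by positivity)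
        (h1.trans (le_of_eq (by norm_num)))
      · obtain ⟨x, hx, hxm⟩ := (Finset.mem_filter.1 hm).2
        obtain ⟨hja, hj⟩ := Finset.mem_inter.1 hj
        rw [Finset.mem_Ico] at hj
        refine (hx j (Finset.mem_inter.2 ⟨hja, Finset.mem_Ico.2 ⟨by omega, hj.2⟩⟩)).move hℓ0 ?_
        have h2 : (p : ℝ) ≤ j := by exact_mod_cast hj.1
        refine le_trans ?_ (Real.one_le_exp (by nlinarith))
        rw [abs_le]
        constructor <;> linarith [hxm.1, hxm.2, hy.1, hy.2]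
      · exact (Nat.cast_nonneg m).trans hy.1
      · push_cast
        linarith [hS3 m hm, hy.2]
    have hpiece : ∀ b, (volume (W b ∩ Icc (-1) 2)).toReal
        ≤ 3 * (D ^ (p - q₀) * Real.exp (-(ℓ * cd a q₀ p))) := fun b => by
      have h1 := maj0_vol (A := W b) (E := 1)
        (v := D ^ (p - q₀) * Real.exp (-(ℓ * cd a q₀ p))) (by positivity) (fun x => by
          have := (hv ℓ hℓ b (-(p * ℓ)) (a ∩ Finset.Ico q₀ p) q₀ p x hq).1
          rwa [maj0_cd, neg_add_cancel, Real.exp_zero, zero_sub] at this) (-1) 2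
      refine ENNReal.toReal_le_of_le_ofReal (by positivity) ?_
      convert h1 using 3 <;> norm_num
    rw [integral_finsetSum _ hint]
    calc ∑ m ∈ S, ∫ x, maj0Q (W (β m)) ((β m)⁻¹ * γ m * (g * uG m)) (x - m)
        ≤ ∑ m ∈ S, 2 * (3 * (D ^ (p - q₀) * Real.exp (-(ℓ * cd a q₀ p)))) :=
          Finset.sum_le_sum fun m _ => (maj0Q_integral (hW _) (hcl m) _).trans
            (mul_le_mul_of_nonneg_left (hpiece _) zero_le_two)
      _ = S.card * (2 * (3 * (D ^ (p - q₀) * Real.exp (-(ℓ * cd a q₀ p))))) := by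
          rw [Finset.sum_const, nsmul_eq_mul]
      _ ≤ 4 * (D ^ k * Real.exp (k * ℓ - ℓ * cd a p (p + k)))
            * (2 * (3 * (D ^ (p - q₀) * Real.exp (-(ℓ * cd a q₀ p))))) := by gcongr
      _ = D ^ (p + k - q₀) * 24 * Real.exp (k * ℓ - ℓ * cd a q₀ (p + k)) := by
          rw [maj0_cd_add a hq (Nat.le_add_right p k), show p + k - q₀ = k + (p - q₀) by omega,
            pow_add, show (k : ℝ) * ℓ - ℓ * (cd a q₀ p + cd a p (p + k))
              = (k * ℓ - ℓ * cd a p (p + k)) + -(ℓ * cd a q₀ p) by ring, Real.exp_add]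
          ring
      _ ≤ _ := by
          rw [pow_succ]
          gcongr
          · rw [hD]; gcongr; linarith
          · nlinarith
  · have hcard : (S.card : ℝ) ≤ 4 * E := by
      have h1 : S.card ≤ ⌊3 * E⌋₊ + 1 := by
        simpa using Finset.card_filter_le (Finset.range (⌊3 * E⌋₊ + 1)) _
      have h2 : (S.card : ℝ) ≤ ⌊3 * E⌋₊ + 1 := by exact_mod_cast h1
      linarith [Nat.floor_le (show 0 ≤ 3 * E by positivity)]
    have h1 : 𝓕 (fun x => ((∑ m ∈ S, maj0Q (W (β m)) ((β m)⁻¹ * γ m * (g * uG m)) (x - m) : ℝ) : ℂ)) Ω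
        = 2 * ∑ m ∈ S, ee (m * Ω) * ∫ z in Ico (0 : ℝ) 1,
          (maj0F (W (β m)) ((β m)⁻¹ * γ m * (g * uG m)) z : ℝ) * ee (Ω * z) := by
      rw [ft_eq, Finset.mul_sum]
      simp only [Complex.ofReal_sum, Finset.mul_sum]
      rw [integral_finsetSum]
      · exact Finset.sum_congr rfl fun m _ => maj0Q_ft _ _ _ _
      · intro m hm
        refine (hint m hm).ofReal.bdd_mul (c := 1) ?_ (ae_of_all _ fun x => (norm_ee _).le)
        exact (continuous_ee.comp (continuous_id.mul continuous_const)).aestronglyMeasurable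
    rw [h1, norm_mul, Complex.norm_ofNat,
      ← Finset.sum_fiberwise_of_maps_to (g := β) (t := B) fun m _ => hβ m]
    have h2 : ∀ b ∈ B, ‖∑ m ∈ S with β m = b, ee (m * Ω) * ∫ z in Ico (0 : ℝ) 1,
          (maj0F (W (β m)) ((β m)⁻¹ * γ m * (g * uG m)) z : ℝ) * ee (Ω * z)‖
        ≤ Cf * Real.exp (k * ℓ - k * ℓ / 8) := fun b _ => by
      have h3 := hf g b (k * ℓ) Ω (S.filter fun m => β m = b) γ (W b) (hW b) hs hΩ
        (le_trans (by exact_mod_cast Finset.card_filter_le _ _) hcard) fun m hm => by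
          obtain ⟨hm, e⟩ := Finset.mem_filter.1 hm
          exact ⟨hγ m, by linarith [hS3 m hm], e ▸ hcl m⟩
      refine le_trans (le_of_eq ?_) h3
      congr 1
      exact Finset.sum_congr rfl fun m hm => by rw [(Finset.mem_filter.1 hm).2]
    have h4 := (norm_sum_le _ _).trans (Finset.sum_le_sum h2)
    rw [Finset.sum_const, nsmul_eq_mul] at h4
    have h5 := Real.exp_pos (k * ℓ - k * ℓ / 8)
    nlinarith

end Pool.Agent.Lib.MP_a52643_an.N2
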