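import Pool.Agent.Lib.MP_a52643_an.N2.Defs
import Pool.Agent.Lib.MP_a52643_an.NS.Stat

/-!
Events and their measurability.
-/

open MeasureTheory Set Filter Topology Metric UpperHalfPlane
open scoped ENNReal MatrixGroups Real FourierTransform ComplexConjugate

noncomputable section

namespace Pool.Agent.Lib.MP_a52643_an.N2

open NS

variable {Λ : Set SL2} {L : Set (ℍ × ℍ)}

lemma stat_sb (L : Set (ℍ × ℍ)) (t ℓ : ℝ) : MeasurableSet {g | sb L t ℓ g} :=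
  (measurable_bp.prodMk (measurable_bp.comp (measurable_mul_const (aG ℓ))))
    (isOpen_near L t).measurableSet

lemma measurableSet_mb (L : Set (ℍ × ℍ)) (t ℓ : ℝ) : MeasurableSet {g | mb L t ℓ g} := by
  have : {g | mb L t ℓ g} = ⋂ i : ℕ, ⋂ _ : i < 2000,
      (fun g => g * aG ((i : ℕ) * ℓ)) ⁻¹' {g | sb L t ℓ g} := by
    ext g; simp [mb]
  rw [this]
  exact MeasurableSet.iInter fun i => MeasurableSet.iInter fun _ =>
    measurable_mul_const _ (stat_sb L t ℓ)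

lemma measurableSet_pat (L : Set (ℍ × ℍ)) (t ℓ : ℝ) (N : ℕ) (Φ : Finset ℕ → Prop) :
    MeasurableSet {g | Φ (pat L t ℓ N g)} := by
  have h1 : ∀ a : Finset ℕ, MeasurableSet {g | pat L t ℓ N g = a} := by
    intro a
    have : {g | pat L t ℓ N g = a} = ⋂ j : ℕ,
        {g | (j < N ∧ mb L t ℓ (g * aG (j * (2000 * ℓ)))) ↔ j ∈ a} := by
      ext g; simp [pat, Finset.ext_iff]
    rw [this]
    refine MeasurableSet.iInter fun j => ?_
    have h2 : MeasurableSet {g | mb L t ℓ (g * aG (j * (2000 * ℓ)))} :=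
      measurable_mul_const _ (measurableSet_mb L t ℓ)
    by_cases hj : j < N <;> by_cases ha : j ∈ a
    · simpa [hj, ha] using h2
    · simp only [hj, ha, true_and, iff_false]
      exact h2.compl
    · simp [hj, ha]
    · simp [hj, ha]
  have : {g | Φ (pat L t ℓ N g)} = ⋃ a : Finset ℕ, ⋃ _ : Φ a, {g | pat L t ℓ N g = a} := by
    ext g; simp
  rw [this]
  exact MeasurableSet.iUnion fun a => MeasurableSet.iUnion fun _ => h1 a

lemma Geo.LI_mb (G : Geo Λ L) (t ℓ : ℝ) : LI Λ {g | mb L t ℓ g} := by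
  intro γ hγ g
  show mb L t ℓ (γ * g) ↔ mb L t ℓ g
  refine forall₂_congr fun i _ => ?_
  rw [sb, sb, mul_assoc γ g, mul_assoc γ, bp_mul γ, bp_mul γ]
  exact G.near_iff hγ _ _ _

lemma Geo.pat_inv (G : Geo Λ L) (t ℓ : ℝ) (N : ℕ) {γ : SL2} (hγ : γ ∈ Λ) (g : SL2) :
    pat L t ℓ N (γ * g) = pat L t ℓ N g := by
  ext j
  simp only [pat, Finset.mem_filter]
  rw [mul_assoc]
  exact and_congr_right fun _ => G.LI_mb t ℓ γ hγ _

lemma pat_subset (L : Set (ℍ × ℍ)) (t ℓ : ℝ) (N : ℕ) (g : SL2) : pat L t ℓ N g ⊆ Finset.range N := by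
  intro j hj
  simp only [pat, Finset.mem_filter] at hj
  exact hj.1

lemma mem_pat {t ℓ : ℝ} {N j : ℕ} {g : SL2} :
    j ∈ pat L t ℓ N g ↔ j < N ∧ mb L t ℓ (g * aG (j * (2000 * ℓ))) := by
  simp only [pat, Finset.mem_filter, Finset.mem_range]

lemma mb.mono {t t' ℓ : ℝ} {g : SL2} (h : mb L t ℓ g) (ht : t ≤ t') : mb L t' ℓ g := by
  exact fun i hi => near.mono (h i hi) ht

lemma mb.move {t ℓ : ℝ} {g g' : SL2} (h : mb L t ℓ g) (hℓ : 0 ≤ ℓ) (hc : Cls 1 (2000 * ℓ) g g') :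
    mb L (t + 1) ℓ g' := by
  intro i hi
  have h1 : (i : ℝ) + 1 ≤ 2000 := by exact_mod_cast hi
  have h0 : (0 : ℝ) ≤ i := Nat.cast_nonneg i
  refine near.move (h i hi) (hc _ ⟨by positivity, by nlinarith⟩) ?_
  rw [mul_assoc, mul_assoc, ← aG_add]
  exact hc _ ⟨by positivity, by nlinarith⟩

lemma pat_move {t ℓ : ℝ} {N : ℕ} {g g' : SL2} (hℓ : 0 ≤ ℓ) (hc : Cls 1 (N * (2000 * ℓ)) g g') :
    pat L t ℓ N g ⊆ pat L (t + 1) ℓ N g' := by
  intro j hj
  obtain ⟨h1, h2⟩ := mem_pat.1 hj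
  refine mem_pat.2 ⟨h1, h2.move hℓ fun τ hτ => ?_⟩
  have h3 : (j : ℝ) + 1 ≤ N := by exact_mod_cast h1
  have h0 : (0 : ℝ) ≤ j := Nat.cast_nonneg j
  have h4 := hτ.1
  have h5 := hτ.2
  rw [mul_assoc, mul_assoc, ← aG_add]
  exact hc _ ⟨by positivity, by nlinarith⟩

end Pool.Agent.Lib.MP_a52643_an.N2
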