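import Pool.Agent.Lib.MP_a52643_an.N2.Maj0
import Pool.Agent.Lib.MP_a52643_an.NS.Step

/-!
One step of the descent.
-/

open MeasureTheory Set Filter Topology Metric UpperHalfPlane
open scoped ENNReal MatrixGroups Real FourierTransform ComplexConjugate

noncomputable section

namespace Pool.Agent.Lib.MP_a52643_an.N2

open NS

theorem Geo.maj {Λ : Set SL2} {L : Set (ℍ × ℍ)} (G : Geo Λ L) {t : ℝ} (ht : 1 ≤ t) :
    ∃ C ℓ₁ : ℝ, 1 ≤ C ∧ 1 ≤ ℓ₁ ∧ ∀ ℓ ≥ ℓ₁, ∀ (g : SL2) (τ : ℝ) (a : Finset ℕ) (q₀ p k : ℕ)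
      (x₁ : ℝ), q₀ ≤ p →
      ∃ ψ : ℝ → ℝ, Measurable ψ ∧ (∀ x, 0 ≤ ψ x) ∧ Integrable ψ ∧
        (∀ x ∈ Zt L t ℓ g τ (a ∩ Finset.Ico q₀ (p + k)),
          x ∈ Icc x₁ (x₁ + 3 * Real.exp (τ + (p + k) * ℓ)) → 1 ≤ ψ x) ∧
        ∫ x, ψ x ≤ (C * Real.exp (ℓ / 10 ^ 14)) ^ (p + k - q₀ + 1)
          * Real.exp (τ + (p + k) * ℓ - ℓ * cd a q₀ (p + k)) ∧
        ∀ ξ, Real.exp (k * ℓ) ≤ |ξ| * Real.exp (τ + p * ℓ) →
          ‖𝓕 (fun x => (ψ x : ℂ)) ξ‖ ≤ C * Real.exp (τ + (p + k) * ℓ - k * ℓ / 8) := by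
  obtain ⟨C, ℓ₁, hC, hℓ₁, H⟩ := G.maj0 ht
  refine ⟨C, ℓ₁, hC, hℓ₁, fun ℓ hℓ g τ a q₀ p k x₁ hp => ?_⟩
  obtain ⟨ψ, hm, hn, hi, h1, h2, h3⟩ := H ℓ hℓ (g * uG x₁ * aG (-(τ + p * ℓ))) a q₀ p k hp
  have hc : 0 < Real.exp (τ + p * ℓ) := Real.exp_pos _
  have hE : ∀ u, Real.exp (τ + (p + k) * ℓ - u) = Real.exp (τ + p * ℓ) * Real.exp (k * ℓ - u) :=
    fun u => by rw [← Real.exp_add]; ring_nf
  refine ⟨fun x => ψ ((x - x₁) / Real.exp (τ + p * ℓ)), hm.comp (by fun_prop), fun x => hn _,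
    (hi.comp_div hc.ne').comp_sub_right x₁, fun x hx hx' => h1 _ (fun j hj => ?_) ⟨?_, ?_⟩, ?_,
    fun ξ hξ => ?_⟩
  · have := hx j hj
    unfold nr at this ⊢
    rw [step_pt, step_pt]
    rwa [show -(p * ℓ) + j * ℓ + (τ + p * ℓ) = τ + j * ℓ by ring,
      show -(p * ℓ) + j * ℓ + ℓ + (τ + p * ℓ) = τ + j * ℓ + ℓ by ring]
  · exact div_nonneg (sub_nonneg.2 hx'.1) hc.le
  · have h0 := hE 0
    rw [sub_zero, sub_zero] at h0
    rw [div_le_iff₀ hc]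
    have := hx'.2
    rw [h0] at this
    linarith
  · rw [step_int ψ x₁ hc, smul_eq_mul, hE]
    refine (mul_le_mul_of_nonneg_left h2 hc.le).trans (le_of_eq ?_)
    ring
  · rw [step_ft ψ x₁ ξ hc, hE]
    have := h3 (Real.exp (τ + p * ℓ) * ξ) (by rwa [abs_mul, abs_of_pos hc, mul_comm _ |ξ|])
    refine (mul_le_mul_of_nonneg_left this hc.le).trans (le_of_eq ?_)
    ring

theorem Geo.step {Λ : Set SL2} {L : Set (ℍ × ℍ)} (G : Geo Λ L) {t : ℝ} (ht : 1 ≤ t) :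
    ∃ C ℓ₁ : ℝ, 1 ≤ C ∧ 1 ≤ ℓ₁ ∧ ∀ ℓ ≥ ℓ₁, ∀ (g₁ g₂ : SL2) (τ : ℝ) (a b : Finset ℕ)
      (q₀ q q₁ k : ℕ) (y η : ℝ), q₀ ≤ q → q + 2 * k ≤ q₁ → q₀ < q₁ → 0 ≤ η →
      y ≤ cd a q₀ q₁ + cd b q q₁ - (q₁ - q) → (q₀ < q → y ≤ cd b q₀ q₁ + k / 8 - (q₁ - q₀)) →
      UP (nb (Zt L t ℓ g₂ τ a) (Real.exp (τ + q₁ * ℓ))) (Zs L t ℓ g₁ τ b) η →
      UP (nb (Zt L t ℓ g₂ τ a) (Real.exp (τ + q₀ * ℓ))) (Zs L t ℓ g₁ τ b)
        ((C * Real.exp (3 * ℓ / 10 ^ 14)) ^ (q₁ - q₀) * Real.exp (-(ℓ * y)) * η) := by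
  obtain ⟨Cu, hCu, Hu⟩ := subm
  obtain ⟨Cs, hCs, Hs⟩ := schur
  obtain ⟨Cm, ℓm, hCm, hℓm, Hm⟩ := G.maj (t := t + 1 + 1) (by linarith)
  obtain ⟨Cv, ℓv, hCv, hℓv, Hv⟩ := G.vol (t := t + 1) (by linarith)
  have hK : 1 ≤ 2 * (Cu * Cs) := by nlinarith [mul_le_mul hCu hCs zero_le_one (by linarith)]
  refine ⟨2 * (Cu * Cs) * (Cm ^ 2 * Cv), max ℓm ℓv,
    one_le_mul_of_one_le_of_one_le hK (one_le_mul_of_one_le_of_one_le (one_le_pow₀ hCm) hCv),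
    hℓm.trans (le_max_left _ _), ?_⟩
  intro ℓ hℓ g₁ g₂ τ a b q₀ q q₁ k y η hq hk hq₁ hη hy hy' hUP
  have hℓ1 : 1 ≤ ℓ := hℓm.trans ((le_max_left _ _).trans hℓ)
  have hℓ0 : 0 ≤ ℓ := by linarith
  obtain ⟨p, rfl⟩ : ∃ p, q₁ = p + k := ⟨q₁ - k, by omega⟩
  have hmono : ∀ (u : ℝ) {i j : ℕ}, i ≤ j → Real.exp (u + i * ℓ) ≤ Real.exp (u + j * ℓ) :=
    fun u i j h => Real.exp_le_exp.2 (by
      have : (i : ℝ) ≤ j := by exact_mod_cast h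
      linarith [mul_le_mul_of_nonneg_right this hℓ0])
  set ρ₀ := Real.exp (τ + q₀ * ℓ) with hρ₀
  set ρ₁ := Real.exp (τ + (p + k : ℕ) * ℓ) with hρ₁
  have hρ₀p : 0 < ρ₀ := Real.exp_pos _
  have hρ₁p : 0 < ρ₁ := Real.exp_pos _
  have hρ : 2 * ρ₀ ≤ ρ₁ := by
    have h1 := hmono τ (Nat.succ_le_of_lt hq₁)
    have h2 : Real.exp (τ + (q₀ + 1 : ℕ) * ℓ) = Real.exp ℓ * ρ₀ := by
      rw [hρ₀, ← Real.exp_add]; push_cast; ring_nf
    have h3 : ℓ + 1 ≤ Real.exp ℓ := Real.add_one_le_exp ℓ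
    rw [Nat.succ_eq_add_one, h2] at h1
    nlinarith
  set E := Real.exp (ℓ / 10 ^ 14) with hE
  have hE1 : 1 ≤ E := Real.one_le_exp (by positivity)
  have hA : 1 ≤ Cm * E := one_le_mul_of_one_le_of_one_le hCm hE1
  have hB : 1 ≤ Cv * E := one_le_mul_of_one_le_of_one_le hCv hE1
  set V := (Cm * E) ^ (p + k - q₀ + 1) * Real.exp (τ + (p + k) * ℓ - ℓ * cd a q₀ (p + k))
    with hV
  set D := if q₀ < q then Cm * Real.exp (τ + (p + k) * ℓ - k * ℓ / 8) else 0 with hD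
  set v₁ := (Cv * E) ^ (p + k - q) * Real.exp (-τ - q * ℓ - ℓ * cd b q (p + k)) with hv₁
  set v₂ := (Cv * E) ^ (p + k - q₀) * Real.exp (-τ - q₀ * ℓ - ℓ * cd b q₀ (p + k)) with hv₂
  have hV0 : 0 ≤ V := by positivity
  have hD0 : 0 ≤ D := by rw [hD]; split_ifs <;> positivity
  have hv₁0 : 0 ≤ v₁ := by positivity
  have hv₂0 : 0 ≤ v₂ := by positivity
  have hinv : ∀ j : ℕ, 1 / Real.exp (τ + j * ℓ) = Real.exp (-τ - j * ℓ) := fun j => by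
    rw [one_div, ← Real.exp_neg]; ring_nf
  have key := Hu (nb (Zt L t ℓ g₂ τ a) ρ₀) (nb (Zt L t ℓ g₂ τ a) ρ₁) (Zs L t ℓ g₁ τ b)
    (Zs L (t + 1) ℓ g₁ τ (b ∩ Finset.Ico q₀ (p + k))) ρ₁ (Cs * (V * v₁ + D * v₂)) η hρ₁p
    (by positivity) hη (isOpen_Zs _ _ _ _ _ _).measurableSet ?_ ?_ hUP ?_
  · refine key.mono Subset.rfl Subset.rfl (mul_le_mul_of_nonneg_right ?_ hη)
    obtain ⟨n, hn⟩ : ∃ n, p + k - q₀ = n + 1 := ⟨p + k - q₀ - 1, by omega⟩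
    set M := (Cm * E) ^ (2 * (n + 1)) * (Cv * E) ^ (n + 1) * Real.exp (-(ℓ * y)) with hM
    have hM0 : 0 ≤ M := by positivity
    have h1 : V * v₁ ≤ M := by
      have e1 : (Cm * E) ^ (p + k - q₀ + 1) ≤ (Cm * E) ^ (2 * (n + 1)) :=
        pow_le_pow_right₀ hA (by omega)
      have e2 : (Cv * E) ^ (p + k - q) ≤ (Cv * E) ^ (n + 1) := pow_le_pow_right₀ hB (by omega)
      have e3 : Real.exp (τ + (p + k) * ℓ - ℓ * cd a q₀ (p + k))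
          * Real.exp (-τ - q * ℓ - ℓ * cd b q (p + k)) ≤ Real.exp (-(ℓ * y)) := by
        rw [← Real.exp_add]
        refine Real.exp_le_exp.2 ?_
        push_cast at hy
        linarith [mul_le_mul_of_nonneg_left hy hℓ0]
      calc V * v₁ = (Cm * E) ^ (p + k - q₀ + 1) * (Cv * E) ^ (p + k - q)
            * (Real.exp (τ + (p + k) * ℓ - ℓ * cd a q₀ (p + k))
              * Real.exp (-τ - q * ℓ - ℓ * cd b q (p + k))) := by rw [hV, hv₁]; ring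
        _ ≤ M := by rw [hM]; gcongr
    have h2 : D * v₂ ≤ M := by
      rw [hD]
      split_ifs with hlt
      · have e1 : Cm ≤ (Cm * E) ^ (2 * (n + 1)) :=
          (le_mul_of_one_le_right (by linarith) hE1).trans (le_self_pow₀ hA (by omega))
        have e3 : Real.exp (τ + (p + k) * ℓ - k * ℓ / 8)
            * Real.exp (-τ - q₀ * ℓ - ℓ * cd b q₀ (p + k)) ≤ Real.exp (-(ℓ * y)) := by
          rw [← Real.exp_add]
          refine Real.exp_le_exp.2 ?_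
          have := hy' hlt
          push_cast at this
          linarith [mul_le_mul_of_nonneg_left this hℓ0]
        calc Cm * Real.exp (τ + (p + k) * ℓ - k * ℓ / 8) * v₂ = Cm * (Cv * E) ^ (n + 1)
              * (Real.exp (τ + (p + k) * ℓ - k * ℓ / 8)
                * Real.exp (-τ - q₀ * ℓ - ℓ * cd b q₀ (p + k))) := by rw [hv₂, hn]; ring
          _ ≤ M := by rw [hM]; gcongr
      · rwa [zero_mul]
    have h3 : Real.exp (3 * ℓ / 10 ^ 14) = E ^ 3 := by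
      rw [hE, ← Real.exp_nat_mul]; push_cast; ring_nf
    have h4 : 2 * (Cu * Cs) ≤ (2 * (Cu * Cs)) ^ (n + 1) := le_self_pow₀ hK (by omega)
    have h5 : (2 * (Cu * Cs) * (Cm ^ 2 * Cv) * E ^ 3) ^ (n + 1) * Real.exp (-(ℓ * y))
        = (2 * (Cu * Cs)) ^ (n + 1) * M := by
      rw [hM, pow_mul, ← mul_pow, ← mul_assoc (_ ^ _), ← mul_pow]
      congr 2
      ring
    rw [hn, h3, h5]
    calc Cu * (Cs * (V * v₁ + D * v₂)) ≤ Cu * (Cs * (M + M)) := by gcongr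
      _ = 2 * (Cu * Cs) * M := by ring
      _ ≤ _ := by gcongr
  · rintro x ⟨z, hz, hxz⟩ x' hx'
    refine ⟨z, hz, ?_⟩
    have := abs_sub_le x' x z
    linarith
  · intro ξ hξ ξ' hξ' j hj
    rw [Finset.mem_inter, Finset.mem_Ico] at hj
    refine (hξ j hj.1).move hℓ0 (hξ'.trans ?_)
    rw [hρ₁, hinv]
    refine Real.exp_le_exp.2 ?_
    have : ((j + 1 : ℕ) : ℝ) ≤ (p + k : ℕ) := by exact_mod_cast hj.2.2
    push_cast at this ⊢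
    linarith [mul_le_mul_of_nonneg_right this hℓ0]
  · intro Ψ hΨ x₀ f hf hs
    obtain ⟨ψ, hm, hn, hi, h1, h2, h3⟩ :=
      Hm ℓ ((le_max_left _ _).trans hℓ) g₂ τ a q₀ p k (x₀ - ρ₁) (by omega)
    have hvol := fun m ζ hm => (Hv ℓ ((le_max_right _ _).trans hℓ) g₁ τ
      (b ∩ Finset.Ico q₀ (p + k)) m (p + k) ζ hm).2
    refine Hs _ _ ψ Ψ ρ₀ (Real.exp (-τ - q * ℓ)) V D v₁ v₂ hρ₀p (Real.exp_pos _) hD0 hv₁0 hv₂0 hm
      hn hi ?_ h2 ?_ hΨ (fun ζ => ?_) (fun ζ => ?_) f hf hs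
    · rintro x ⟨⟨z, hz, hxz⟩, hx⟩ x' hx'
      refine h1 x' (fun j hj => ?_) ?_
      · rw [Finset.mem_inter, Finset.mem_Ico] at hj
        have hj' := hmono τ hj.2.1
        exact ((hz j hj.1).move hℓ0 (hxz.trans hj')).move hℓ0 (hx'.trans hj')
      · have e : Real.exp (τ + (p + k) * ℓ) = ρ₁ := by rw [hρ₁]; push_cast; rfl
        rw [e]
        have := abs_le.1 hx'
        exact ⟨by linarith [hx.1], by linarith [hx.2]⟩
    · intro ξ hξ hξ'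
      rw [hD]
      split_ifs with hlt
      · refine h3 ξ (le_trans ?_ (mul_le_mul_of_nonneg_right hξ (Real.exp_pos _).le))
        rw [← Real.exp_add]
        refine Real.exp_le_exp.2 ?_
        have : ((q + k : ℕ) : ℝ) ≤ p := by exact_mod_cast (by omega : q + k ≤ p)
        push_cast at this
        linarith [mul_le_mul_of_nonneg_right this hℓ0]
      · obtain rfl : q₀ = q := by omega
        rw [hρ₀, hinv] at hξ'
        exact absurd hξ (not_le.2 hξ')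
    · have := hvol q ζ (by omega)
      rwa [step_cd b hq] at this
    · have := hvol q₀ ζ (by omega)
      rw [step_cd b le_rfl] at this
      rwa [hρ₀, hinv]

end Pool.Agent.Lib.MP_a52643_an.N2
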